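import Mathlib
import Pool.Agent.Helper17.CR.Stmts

/-!
Module CASEA of the crew project on MP_c38931_co: case A of the solvable group argument.
-/

set_option autoImplicit false

namespace Pool.Agent.Helper80.CR

open Pool.Agent.Helper17.CR

universe u

/-- conjugation action on functions -/
def casea_act (G : Type u) (K : Type) [Group G] : MulAction G (G → K) where
  smul g f := fun x => f (g⁻¹ * x * g)
  one_smul f := by
    funext x
    change f ((1 : G)⁻¹ * x * 1) = f x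
    simp
  mul_smul g h f := by
    funext x
    change f ((g * h)⁻¹ * x * (g * h)) = f (h⁻¹ * (g⁻¹ * x * g) * h)
    congr 1
    group

theorem casea_one {G : Type u} [Group G] [Finite G] {K : Type} [Field K] (M : Subgroup G)
    [hM : M.Normal] (χ : G → K) (h1 : χ 1 = 1)
    (hmul : ∀ x ∈ M, ∀ y ∈ M, χ (x * y) = χ x * χ y) (g : G)
    (hfix : ∀ x ∈ M, g * x = x * g → x = 1) (hst : ∀ x, χ (g * x * g⁻¹) = χ x) :
    ∀ x ∈ M, χ x = 1 := by
  have hcj : ∀ x ∈ M, g * x * g⁻¹ ∈ M := fun x hx => hM.conj_mem x hx g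
  let T : M → M := fun x => ⟨g * x.1 * g⁻¹ * x.1⁻¹, M.mul_mem (hcj x.1 x.2) (M.inv_mem x.2)⟩
  have hinj : Function.Injective T := by
    intro x y hxy
    have h : g * x.1 * g⁻¹ * x.1⁻¹ = g * y.1 * g⁻¹ * y.1⁻¹ := congrArg Subtype.val hxy
    have hz : y.1⁻¹ * x.1 = 1 := by
      refine hfix _ (M.mul_mem (M.inv_mem y.2) x.2) ?_
      have h2 : (g * y.1 * g⁻¹)⁻¹ * (g * x.1 * g⁻¹) = y.1⁻¹ * x.1 := by
        have h3 : g * x.1 * g⁻¹ = g * y.1 * g⁻¹ * (y.1⁻¹ * x.1) := by
          rw [← mul_assoc, ← h]; group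
        rw [h3]; group
      have h4 : (g * y.1 * g⁻¹)⁻¹ * (g * x.1 * g⁻¹) = g * (y.1⁻¹ * x.1) * g⁻¹ := by group
      rw [h4] at h2
      calc g * (y.1⁻¹ * x.1) = (g * (y.1⁻¹ * x.1) * g⁻¹) * g := by group
        _ = y.1⁻¹ * x.1 * g := by rw [h2]
    apply Subtype.ext
    exact (inv_mul_eq_one.mp hz).symm
  have hsur : Function.Surjective T := Finite.surjective_of_injective hinj
  intro x hx
  obtain ⟨y, hy⟩ := hsur ⟨x, hx⟩
  have hy' : g * y.1 * g⁻¹ * y.1⁻¹ = x := congrArg Subtype.val hy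
  rw [← hy', hmul _ (hcj y.1 y.2) _ (M.inv_mem y.2), hst, ← hmul _ y.2 _ (M.inv_mem y.2)]
  simpa using h1

theorem st_CASEA (h1 : ST_WT.{u}) : ST_CASEA.{u} := by
  intro G _ _ p _ V _ _ _ ρ hρ q M hq hqp hM hMq hMb hab Pi hPi
  obtain ⟨K, _, Om, hcard, hOm, hconj, χ, hχ, x0, hx0, hne⟩ :=
    h1 G p V ρ hρ q M hq hqp hM hMq hMb hab
  letI act : MulAction G (G → K) := casea_act G K
  have hsm : ∀ (g : G) (f : G → K) (x : G), (g • f) x = f (g⁻¹ * x * g) := fun _ _ _ => rfl
  let S := MulAction.stabilizer G χ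
  have hOrb : MulAction.orbit G χ ⊆ (Om : Set (G → K)) := by
    rintro f ⟨g, rfl⟩
    have h := hconj χ hχ g⁻¹
    have h2 : (fun x => χ (g⁻¹ * x * g⁻¹⁻¹)) = g • χ := by
      funext x
      rw [hsm, inv_inv]
    rw [h2] at h
    exact h
  have hidx : S.index = (MulAction.orbit G χ).ncard := MulAction.index_stabilizer G χ
  have hle : S.index ≤ Om.card := by
    rw [hidx, ← Set.ncard_coe_finset]
    exact Set.ncard_le_ncard hOrb (Finset.finite_toSet Om)
  have hpos : 0 < S.index := Nat.pos_of_ne_zero Subgroup.index_ne_zero_of_finite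
  refine ⟨S.index, hpos, le_trans (Nat.pow_le_pow_right (Fact.out : p.Prime).pos hle) hcard, ?_⟩
  intro l j hl hPl hdvd
  have hnd : ¬ l ∣ Nat.card S := by
    intro hd
    haveI : Fact l.Prime := ⟨hl⟩
    obtain ⟨g, hg⟩ := exists_prime_orderOf_dvd_card' (G := S) l hd
    have hg' : orderOf (g : G) = l := by rw [Subgroup.orderOf_coe, hg]
    have hstab : (g : G) • χ = χ := g.2
    have hst : ∀ x, χ ((g : G) * x * (g : G)⁻¹) = χ x := by
      intro x
      have h := congrFun hstab ((g : G) * x * (g : G)⁻¹)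
      rw [hsm] at h
      rw [← h]
      congr 1
      group
    have hall := casea_one M χ (hOm χ hχ).1 (hOm χ hχ).2.1 (g : G)
      (hPi (g : G) (by rw [hg']; exact hl) (by rw [hg']; exact hPl)) hst x0 hx0
    exact hne hall
  rw [← Subgroup.card_mul_index S] at hdvd
  exact (Nat.Coprime.pow_left j ((Nat.Prime.coprime_iff_not_dvd hl).mpr hnd)).dvd_of_dvd_mul_left
    hdvd

end Pool.Agent.Helper80.CR
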